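import Pool.Agent.H.MP_fa5791_lc.J

set_option autoImplicit false

namespace Pool.Agent.Results.MP_fa5791_lc.No

open Pool.Agent.H.MP_fa5791_lc

/-- Every infinite computable Polish space has two computable presentations such that no homeomorphism
between them is computable. -/
theorem result (X : Type) [TopologicalSpace X] [Infinite X] (h : CPolish X) :
    ∃ M N : CMS, Nonempty (M.M ≃ₜ X) ∧ Nonempty (N.M ≃ₜ X) ∧
      ∀ f : M.M ≃ₜ N.M, ¬ ∃ Φ : ℕ →. ℕ, Partrec Φ ∧ Realizes Φ M.c N.c f := by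
  obtain ⟨A, -, -, a⟩ := low_simple
  obtain ⟨M, N, b, c, d⟩ := main' h a
  exact ⟨M, N, b, c, fun f ⟨Φ, e, k⟩ => d f ⟨Φ, e.turingReducible, k⟩⟩

end Pool.Agent.Results.MP_fa5791_lc.No
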